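import Pool.Agent.Helper57.ZF.Goals

/-!
# Inverse of a linear map which expands by 5
-/

namespace Pool.Agent.Helper34.ZF

open Pool.Agent.Helper57.ZF

theorem INV : G_INV := by
  intro E _ _ _ A hA
  have hinj : Function.Injective (A : E →ₗ[ℝ] E) := by
    rw [← LinearMap.ker_eq_bot, LinearMap.ker_eq_bot']
    intro v hv
    have h := hA v
    have hv' : A v = 0 := hv
    rw [hv', norm_zero] at h
    have : ‖v‖ = 0 := le_antisymm (by linarith) (norm_nonneg _)
    exact norm_eq_zero.1 this
  set e : E ≃ₗ[ℝ] E := LinearEquiv.ofInjectiveEndo (A : E →ₗ[ℝ] E) hinj with he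
  have hae : ∀ x, e x = A x := fun x => rfl
  refine ⟨LinearMap.toContinuousLinearMap (e.symm : E →ₗ[ℝ] E), ?_, ?_⟩
  · refine ContinuousLinearMap.opNorm_le_bound _ (by norm_num) (fun y => ?_)
    have h := hA (e.symm y)
    rw [← hae, LinearEquiv.apply_symm_apply] at h
    show ‖e.symm y‖ ≤ 1 / 5 * ‖y‖
    linarith
  · intro x y
    show y = A x ↔ x = e.symm y
    rw [← hae]
    constructor
    · rintro rfl
      simp
    · rintro rfl
      simp

end Pool.Agent.Helper34.ZF
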