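import Pool.Agent.Helper57.ZF.Goals

/-!
# Localisation: a graph of small slope through a point which is high above the cluster
-/

namespace Pool.Agent.Helper34.ZF

open Pool.Agent.Helper57.ZF

theorem LOCY : G_LOCY := by
  intro E _ _ f w p z b hf hb h2 hD hp hz
  by_contra hcon
  push Not at hcon
  have h1 : dist z.1 w.1 ≤ dist z w := by rw [Prod.dist_eq]; exact le_max_left _ _
  have h3 : dist z.2 w.2 ≤ dist z w := by rw [Prod.dist_eq]; exact le_max_right _ _
  have h4 : dist p.1 w.1 ≤ dist p w := by rw [Prod.dist_eq]; exact le_max_left _ _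
  have e : p.2 - z.2 = f.1 (p.1 - z.1) := by
    unfold On at hp hz
    rw [hp, hz, map_sub]
    abel
  have h5 : dist p.2 z.2 ≤ 1 / 5 * dist p.1 z.1 := by
    rw [dist_eq_norm, e, dist_eq_norm]
    exact (f.1.le_opNorm _).trans (mul_le_mul_of_nonneg_right hf (norm_nonneg _))
  have h6 : dist p.1 z.1 ≤ dist p.1 w.1 + dist z.1 w.1 := dist_triangle_right _ _ _
  have h7 : dist p.2 w.2 ≤ dist p.2 z.2 + dist z.2 w.2 := dist_triangle _ _ _
  linarith

theorem LOCX : G_LOCX := by
  intro E _ _ g w p z b hf hb h2 hD hp hz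
  by_contra hcon
  push Not at hcon
  have h1 : dist z.1 w.1 ≤ dist z w := by rw [Prod.dist_eq]; exact le_max_left _ _
  have h3 : dist z.2 w.2 ≤ dist z w := by rw [Prod.dist_eq]; exact le_max_right _ _
  have h4 : dist p.2 w.2 ≤ dist p w := by rw [Prod.dist_eq]; exact le_max_right _ _
  have e : p.1 - z.1 = g.1 (p.2 - z.2) := by
    unfold Ov at hp hz
    rw [hp, hz, map_sub]
    abel
  have h5 : dist p.1 z.1 ≤ 1 / 5 * dist p.2 z.2 := by
    rw [dist_eq_norm, e, dist_eq_norm]
    exact (g.1.le_opNorm _).trans (mul_le_mul_of_nonneg_right hf (norm_nonneg _))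
  have h6 : dist p.2 z.2 ≤ dist p.2 w.2 + dist z.2 w.2 := dist_triangle_right _ _ _
  have h7 : dist p.1 w.1 ≤ dist p.1 z.1 + dist z.1 w.1 := dist_triangle _ _ _
  linarith

end Pool.Agent.Helper34.ZF
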